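import Pool.Agent.Helper87.GJ.Defs

/-!
# GJ-J4: local averages with a window of characters, uniformly in the base point
-/

set_option autoImplicit false
open MeasureTheory Set Filter Topology
open Pool.Agent.Helper78.KD
open Pool.Agent.Helper18.KD (par idx pt)
open Pool.Agent.Helper82.FK (e norm_e e_add e_zero continuous_e)
open Pool.Agent.Helper18.GP (gp nm)
open Pool.Agent.Helper87.GP (Z fz cut cut_of_le cut_of_ge cut_nonneg Z_abs mem_S e_sum fz_lip sum_i_le est)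
open Pool.Agent.Helper59.MF (cc)

namespace Pool.Agent.GJ

/-- telescoping -/
private theorem tel34 (g d : ℕ → ℂ) (L : ℕ) :
    ∏ j ∈ Finset.range L, g j - ∏ j ∈ Finset.range L, d j =
      ∑ t ∈ Finset.range L, (∏ j ∈ Finset.Ico (t + 1) L, d j) * ((∏ j ∈ Finset.range t, g j) * (g t - d t)) := by
  induction L with
  | zero => simp
  | succ L ih =>
    rw [Finset.prod_range_succ, Finset.prod_range_succ, Finset.sum_range_succ, Finset.Ico_self, Finset.prod_empty]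
    have h1 : ∑ t ∈ Finset.range L, (∏ j ∈ Finset.Ico (t + 1) (L + 1), d j) * ((∏ j ∈ Finset.range t, g j) * (g t - d t)) =
        (∑ t ∈ Finset.range L, (∏ j ∈ Finset.Ico (t + 1) L, d j) * ((∏ j ∈ Finset.range t, g j) * (g t - d t))) * d L := by
      rw [Finset.sum_mul]
      refine Finset.sum_congr rfl fun t ht => ?_
      have h2 : t + 1 ≤ L := Finset.mem_range.1 ht
      rw [Finset.prod_Ico_succ_top h2]
      ring
    rw [h1, ← ih]
    ring

/-- expansion with coefficients which depend on the factor -/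
private theorem expand34 (H N t : ℕ) (C : ℕ → ℤ → ℂ) (s : ℕ → ℝ) (x : ℝ) :
    (∏ j ∈ Finset.range t, gp H (C j) (x ^ (N + j) + s j)) * (gp H (C t) (x ^ (N + t) + s t) - C t 0) =
      ∑ b ∈ Z H t, (∏ i : Fin (t + 1), C i (b i) * e (b i * s i)) * e (∑ i : Fin (t + 1), (b i : ℝ) * x ^ (N + (i : ℕ))) := by
  have h0 : (0 : ℤ) ∈ Finset.Icc (-(H : ℤ)) H := by rw [Finset.mem_Icc]; constructor <;> omega
  have h1 : gp H (C t) (x ^ (N + t) + s t) - C t 0 =
      ∑ h ∈ Pool.Agent.Helper87.GP.S H t (Fin.last t), C t h * e (h * (x ^ (N + t) + s t)) := by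
    unfold gp Pool.Agent.Helper87.GP.S
    rw [if_pos (Fin.val_last t), ← Finset.add_sum_erase _ _ h0]
    simp [e_zero]
  have h2 : ∏ j ∈ Finset.range t, gp H (C j) (x ^ (N + j) + s j) =
      ∏ i : Fin t, ∑ h ∈ Pool.Agent.Helper87.GP.S H t i.castSucc, C (i.castSucc : ℕ) h * e (h * (x ^ (N + (i.castSucc : ℕ)) + s (i.castSucc : ℕ))) := by
    rw [Finset.prod_range]
    refine Finset.prod_congr rfl fun i _ => ?_
    unfold gp Pool.Agent.Helper87.GP.S
    have : ¬ ((i.castSucc : Fin (t + 1)) : ℕ) = t := by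
      rw [Fin.val_castSucc]; exact i.2.ne
    rw [if_neg this, Fin.val_castSucc]
  have h3 : (∏ j ∈ Finset.range t, gp H (C j) (x ^ (N + j) + s j)) * (gp H (C t) (x ^ (N + t) + s t) - C t 0) =
      ∏ i : Fin (t + 1), ∑ h ∈ Pool.Agent.Helper87.GP.S H t i, C (i : ℕ) h * e (h * (x ^ (N + (i : ℕ)) + s (i : ℕ))) := by
    rw [Fin.prod_univ_castSucc, h2, h1, Fin.val_last]
  rw [h3, Finset.prod_univ_sum]
  refine Finset.sum_congr rfl fun b _ => ?_
  rw [e_sum, ← Finset.prod_mul_distrib]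
  refine Finset.prod_congr rfl fun i _ => ?_
  rw [mul_assoc, ← e_add]
  congr 2
  ring

private theorem int_bound34 (H N L : ℕ) (C : ℕ → ℤ → ℂ) (hC : ∀ i, ‖C i 0‖ ≤ 1) (s : ℕ → ℝ) (p q : ℝ) :
    ‖(∫ x in p..q, ∏ j ∈ Finset.range L, gp H (C j) (x ^ (N + j) + s j)) - (∏ j ∈ Finset.range L, C j 0) * ((q - p : ℝ) : ℂ)‖ ≤
      ∑ t ∈ Finset.range L, ∑ b ∈ Z H t, (∏ i : Fin (t + 1), ‖C i (b i)‖) *
        ‖∫ x in p..q, e (∑ i : Fin (t + 1), (b i : ℝ) * x ^ (N + (i : ℕ)))‖ := by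
  have h1 : ∀ x : ℝ, ∏ j ∈ Finset.range L, gp H (C j) (x ^ (N + j) + s j) = ∏ j ∈ Finset.range L, C j 0 +
      ∑ t ∈ Finset.range L, (∏ j ∈ Finset.Ico (t + 1) L, C j 0) * ∑ b ∈ Z H t, (∏ i : Fin (t + 1), C i (b i) * e (b i * s i)) *
        e (∑ i : Fin (t + 1), (b i : ℝ) * x ^ (N + (i : ℕ))) := by
    intro x
    have h2 := tel34 (fun j => gp H (C j) (x ^ (N + j) + s j)) (fun j => C j 0) L
    rw [sub_eq_iff_eq_add'] at h2
    rw [h2]
    congr 1
    refine Finset.sum_congr rfl fun t _ => ?_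
    congr 1
    exact expand34 H N t C s x
  have hcont : ∀ t : ℕ, ∀ b : Fin (t + 1) → ℤ, Continuous fun x : ℝ => (∏ i : Fin (t + 1), C i (b i) * e (b i * s i)) *
        e (∑ i : Fin (t + 1), (b i : ℝ) * x ^ (N + (i : ℕ))) := fun t b =>
    continuous_const.mul (continuous_e.comp (by fun_prop))
  have hcont2 : ∀ t : ℕ, Continuous fun x : ℝ => (∏ j ∈ Finset.Ico (t + 1) L, C j 0) * ∑ b ∈ Z H t, (∏ i : Fin (t + 1), C i (b i) * e (b i * s i)) *
        e (∑ i : Fin (t + 1), (b i : ℝ) * x ^ (N + (i : ℕ))) := fun t =>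
    continuous_const.mul (continuous_finsetSum _ fun b _ => hcont t b)
  have h3 : (∫ x in p..q, ∏ j ∈ Finset.range L, gp H (C j) (x ^ (N + j) + s j)) - (∏ j ∈ Finset.range L, C j 0) * ((q - p : ℝ) : ℂ) =
      ∑ t ∈ Finset.range L, (∏ j ∈ Finset.Ico (t + 1) L, C j 0) * ∑ b ∈ Z H t, (∏ i : Fin (t + 1), C i (b i) * e (b i * s i)) *
        ∫ x in p..q, e (∑ i : Fin (t + 1), (b i : ℝ) * x ^ (N + (i : ℕ))) := by
    simp_rw [h1]
    rw [intervalIntegral.integral_add intervalIntegrable_const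
      ((continuous_finsetSum _ fun t _ => hcont2 t).intervalIntegrable _ _)]
    rw [intervalIntegral.integral_const, Complex.real_smul, mul_comm ((q - p : ℝ) : ℂ), add_sub_cancel_left]
    rw [intervalIntegral.integral_finsetSum fun t _ => ((hcont2 t).intervalIntegrable _ _)]
    refine Finset.sum_congr rfl fun t _ => ?_
    rw [intervalIntegral.integral_const_mul]
    congr 1
    rw [intervalIntegral.integral_finsetSum fun b _ => (hcont t b).intervalIntegrable _ _]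
    refine Finset.sum_congr rfl fun b _ => ?_
    rw [intervalIntegral.integral_const_mul]
  rw [h3]
  refine (norm_sum_le _ _).trans (Finset.sum_le_sum fun t _ => ?_)
  rw [norm_mul]
  have h4 : ‖∏ j ∈ Finset.Ico (t + 1) L, C j 0‖ ≤ 1 := by
    rw [norm_prod]
    exact Finset.prod_le_one (fun _ _ => norm_nonneg _) fun i _ => hC i
  have h5 : ‖∑ b ∈ Z H t, (∏ i : Fin (t + 1), C i (b i) * e (b i * s i)) *
        ∫ x in p..q, e (∑ i : Fin (t + 1), (b i : ℝ) * x ^ (N + (i : ℕ)))‖ ≤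
      ∑ b ∈ Z H t, (∏ i : Fin (t + 1), ‖C i (b i)‖) * ‖∫ x in p..q, e (∑ i : Fin (t + 1), (b i : ℝ) * x ^ (N + (i : ℕ)))‖ := by
    refine (norm_sum_le _ _).trans (Finset.sum_le_sum fun b _ => ?_)
    rw [norm_mul, norm_prod]
    refine le_of_eq ?_
    congr 1
    refine Finset.prod_congr rfl fun i _ => ?_
    rw [norm_mul, norm_e, mul_one]
  calc _ ≤ 1 * _ := mul_le_mul_of_nonneg_right h4 (norm_nonneg _)
    _ ≤ _ := by rw [one_mul]; exact h5

/-- the local bound, uniformly in the base point -/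
private theorem local_bound34 {a b : ℝ} (ha : 1 < a) (hab : a ≤ b) (H J L : ℕ) {δ : ℝ} (hδ : 0 < δ) :
    ∃ n0 : ℕ, ∃ ρ > 0, ∀ x0 ∈ Icc a b, ∀ n ≥ n0, ∀ p q, a ≤ p → p < q → q ≤ b → x0 - ρ < p → q < x0 + ρ →
      1 ≤ q ^ n - p ^ n → q ^ n - p ^ n ≤ 2 →
      ∀ t < L, ∀ b' ∈ Z H t, ‖∫ x in p..q, e (∑ i : Fin (t + 1), (b' i : ℝ) * x ^ (n + J + (i : ℕ)))‖ ≤
        (q - p) * (2 * cut ((a ^ J)⁻¹) (fz b' x0) + δ) := by
  have ha0 : 0 < a := by linarith
  obtain ⟨R, hR⟩ : ∃ R : ℝ, R = b := ⟨_, rfl⟩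
  have hR1 : 1 ≤ R := by linarith
  obtain ⟨η, hη⟩ : ∃ η : ℝ, η = (a ^ J)⁻¹ := ⟨_, rfl⟩
  rw [← hη]
  have hη0 : 0 < η := by rw [hη]; positivity
  obtain ⟨D, hD⟩ : ∃ D : ℝ, D = L * (L * H * R ^ L) := ⟨_, rfl⟩
  have hD0 : 0 ≤ D := by rw [hD]; positivity
  obtain ⟨B, hB⟩ : ∃ B : ℝ, B = 2 * Real.pi * (L * (12 * H * (1 + J + L) ^ 2 * R ^ (J + L + 1))) := ⟨_, rfl⟩
  have hB0 : 0 ≤ B := by rw [hB]; positivity
  have ht1 : ∀ᶠ m : ℕ in atTop, B / δ ≤ a ^ m := (tendsto_pow_atTop_atTop_of_one_lt ha).eventually_ge_atTop _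
  have ht2 : ∀ᶠ m : ℕ in atTop, 4 * D / η ≤ (m : ℝ) := tendsto_natCast_atTop_atTop.eventually_ge_atTop _
  obtain ⟨m0, hm0⟩ := eventually_atTop.1 (ht1.and ht2)
  refine ⟨m0 + 1, η / (4 * (D + 1)), by positivity, ?_⟩
  intro x0 hx0 n hn p q hpa hpq hqb hp hq h1 h2 t ht b' hb
  obtain ⟨m, rfl⟩ : ∃ m, n = m + 1 := ⟨n - 1, by omega⟩
  obtain ⟨hm1, hm2⟩ := hm0 m (by omega)
  have hx0a : a ≤ x0 := hx0.1
  have hx0b : x0 ≤ R := by rw [hR]; exact hx0.2
  have hqR : q ≤ R := by linarith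
  have hp0 : 0 < p := by linarith
  have hZ := Z_abs hb
  rcases le_or_gt |fz b' x0| η with hcase | hcase
  · rw [cut_of_le hη0 hcase]
    have h3 : ‖∫ x in p..q, e (∑ i : Fin (t + 1), (b' i : ℝ) * x ^ (m + 1 + J + (i : ℕ)))‖ ≤ 1 * |q - p| :=
      intervalIntegral.norm_integral_le_of_norm_le_const fun x _ => (norm_e _).le
    rw [abs_of_pos (by linarith : 0 < q - p)] at h3
    have h4 : 0 < q - p := by linarith
    nlinarith
  · rw [cut_of_ge hcase.le]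
    obtain ⟨y, hy⟩ : ∃ y : ℝ, y = fz b' x0 := ⟨_, rfl⟩
    rw [← hy] at hcase ⊢
    have hy0 : 0 < |y| := hη0.trans hcase
    have h3 : |fz b' p - y| ≤ η / 4 := by
      have h4 := fz_lip hZ ht hR1 hp0.le (by linarith) (by linarith : 0 ≤ x0) hx0b
      rw [← hy, ← hD] at h4
      have h5 : |p - x0| ≤ η / (4 * (D + 1)) := by
        rw [abs_le]
        constructor <;> linarith
      calc |fz b' p - y| ≤ D * |p - x0| := h4
        _ ≤ (D + 1) * (η / (4 * (D + 1))) := mul_le_mul (by linarith) h5 (abs_nonneg _) (by linarith)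
        _ = η / 4 := by field_simp
    have h4 : 3 / 4 * |y| ≤ |fz b' p| := by
      have h5 := abs_sub_abs_le_abs_sub y (fz b' p)
      rw [abs_sub_comm] at h5
      linarith
    have h5 := sum_i_le hZ ht hR1 hp0.le (by linarith : p ≤ R)
    rw [← hD] at h5
    have h6 : 4 * D ≤ m * η := by rwa [div_le_iff₀ hη0] at hm2
    have h7 : (∑ i : Fin (t + 1), (b' i : ℝ) * (((m + J + (i : ℕ) : ℕ) : ℝ) + 1) * p ^ (i : ℕ)) =
        ((m : ℝ) + J + 1) * fz b' p + ∑ i : Fin (t + 1), (b' i : ℝ) * ((i : ℕ) : ℝ) * p ^ (i : ℕ) := by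
      unfold fz
      rw [Finset.mul_sum, ← Finset.sum_add_distrib]
      refine Finset.sum_congr rfl fun i _ => ?_
      push_cast
      ring
    have hlow : ((m : ℝ) + 1) * |y| / 2 ≤
        |∑ i : Fin (t + 1), (b' i : ℝ) * (((m + J + (i : ℕ) : ℕ) : ℝ) + 1) * p ^ (i : ℕ)| := by
      rw [h7]
      have h8 := abs_sub_abs_le_abs_sub (((m : ℝ) + J + 1) * fz b' p) (-(∑ i : Fin (t + 1), (b' i : ℝ) * ((i : ℕ) : ℝ) * p ^ (i : ℕ)))
      rw [sub_neg_eq_add, abs_neg, abs_mul, abs_of_pos (by positivity : 0 < (m : ℝ) + J + 1)] at h8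
      have h9 : ((m : ℝ) + 1) * (3 / 4 * |y|) ≤ ((m : ℝ) + J + 1) * |fz b' p| := by
        have : (0 : ℝ) ≤ J := Nat.cast_nonneg J
        exact mul_le_mul (by linarith) h4 (by positivity) (by positivity)
      have h10 : (m : ℝ) * η ≤ (m + 1) * |y| := by
        have : (0 : ℝ) ≤ m := Nat.cast_nonneg m
        nlinarith
      linarith
    have h8 := est (R := R) (H := H) (J := J) b' hZ ht ha hpa hpq hqR h1 h2 hy0 hlow
    rw [hη]
    refine h8.trans (mul_le_mul_of_nonneg_left (add_le_add le_rfl ?_) (by linarith))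
    have h9 : 2 * Real.pi * (L * (12 * H * (1 + J + L) ^ 2 * R ^ (J + L + 1) / a ^ m)) = B / a ^ m := by
      rw [hB]; ring
    rw [h9, div_le_iff₀ (by positivity)]
    rw [div_le_iff₀ hδ] at hm1
    linarith

/-- shifting the coefficients by `h` multiplies by `e (h y)` -/
private theorem shift34 (H r : ℕ) (c : ℤ → ℂ) {h : ℤ} (hh : |h| ≤ r) (y : ℝ) :
    gp (H + r) (fun k => if k - h ∈ Finset.Icc (-(H : ℤ)) H then c (k - h) else 0) y = e (h * y) * gp H c y := by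
  unfold gp
  obtain ⟨hh1, hh2⟩ := abs_le.1 hh
  have h1 : ∀ m : ℤ, m ∈ Finset.Icc (-(H : ℤ)) H → e (h * y) * (c m * e (m * y)) =
      (fun k : ℤ => (if k - h ∈ Finset.Icc (-(H : ℤ)) H then c (k - h) else 0) * e (k * y)) (m + h) := by
    intro m hm
    simp only
    rw [add_sub_cancel_right, if_pos hm]
    have h2 : e (((m + h : ℤ) : ℝ) * y) = e (m * y) * e (h * y) := by
      rw [← e_add]
      congr 1
      push_cast
      ring
    rw [h2]
    ring
  rw [Finset.mul_sum, Finset.sum_congr rfl h1]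
  symm
  refine Finset.sum_bij_ne_zero (fun m _ _ => m + h) ?_ ?_ ?_ ?_
  · intro m hm _
    rw [Finset.mem_Icc] at hm ⊢
    push_cast
    constructor <;> omega
  · intro m₁ _ _ m₂ _ _ heq
    omega
  · intro k hk hk0
    by_cases hkh : k - h ∈ Finset.Icc (-(H : ℤ)) H
    · refine ⟨k - h, hkh, ?_, by ring⟩
      simp only [sub_add_cancel]
      exact hk0
    · simp only at hk0
      rw [if_neg hkh, zero_mul] at hk0
      exact absurd rfl hk0
  · intro m _ _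
    rfl

/-- the character carried by the factor number `i` -/
private def hw34 (h : ℕ → ℤ) (j i : ℕ) : ℤ := if j ≤ i then h (i - j) else 0

private theorem hw_le34 {r : ℕ} {h : ℕ → ℤ} (hh : h ∈ Wn r) (j i : ℕ) : |hw34 h j i| ≤ r := by
  unfold hw34
  split_ifs
  · exact hh.1 _
  · simp

private theorem cw_eq34 (H : ℕ) (c : ℤ → ℂ) (h : ℕ → ℤ) (j i : ℕ) :
    cw H c h j i = fun k => if k - hw34 h j i ∈ Finset.Icc (-(H : ℤ)) H then c (k - hw34 h j i) else 0 := rfl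

/-- the coefficient at zero is at most one -/
private theorem cw_zero34 {H : ℕ} {c : ℤ → ℂ} {g : ℝ → ℝ} (hg : ∀ t, gp H c t = g t) (hc : c 0 = 1) (hg0 : ∀ t, 0 < g t)
    {r : ℕ} {h : ℕ → ℤ} (hh : h ∈ Wn r) (j i : ℕ) : ‖cw H c h j i 0‖ ≤ 1 := by
  have h2 := Pool.Agent.Helper18.GP.gp_int (H + r) (cw H c h j i)
  have h3 : ∀ t : ℝ, gp (H + r) (cw H c h j i) t = e (hw34 h j i * t) * (g t : ℂ) := by
    intro t
    rw [cw_eq34, shift34 H r c (hw_le34 hh j i), hg]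
  simp_rw [h3] at h2
  rw [← h2]
  have h7 : ∫ t in (0 : ℝ)..1, g t = 1 := by
    have h8 := Pool.Agent.Helper18.GP.coeff_zero hg
    rw [hc] at h8
    exact_mod_cast h8.symm
  calc ‖∫ t in (0 : ℝ)..1, e (hw34 h j i * t) * (g t : ℂ)‖ ≤ ∫ t in (0 : ℝ)..1, ‖e (hw34 h j i * t) * (g t : ℂ)‖ :=
        intervalIntegral.norm_integral_le_integral_norm zero_le_one
    _ = ∫ t in (0 : ℝ)..1, g t := by
        refine intervalIntegral.integral_congr fun t _ => ?_
        show ‖e (hw34 h j i * t) * (g t : ℂ)‖ = g t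
        rw [norm_mul, norm_e, one_mul, Complex.norm_real, Real.norm_eq_abs, abs_of_pos (hg0 t)]
    _ ≤ 1 := h7.le

/-- a bound for all coefficients -/
private theorem cw_le34 (H : ℕ) (c : ℤ → ℂ) (h : ℕ → ℤ) (j i : ℕ) (k : ℤ) :
    ‖cw H c h j i k‖ ≤ ∑ m ∈ Finset.Icc (-(H : ℤ)) H, ‖c m‖ := by
  rw [cw_eq34]
  simp only
  split_ifs with hk
  · exact Finset.single_le_sum (f := fun m => ‖c m‖) (fun _ _ => norm_nonneg _) hk
  · rw [norm_zero]
    exact Finset.sum_nonneg fun _ _ => norm_nonneg _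

/-- products over the window -/
private theorem prod_win34 {M : Type*} [CommMonoid M] (f : ℤ → ℕ → M) (hf : ∀ i, f 0 i = 1) {r j L : ℕ} {h : ℕ → ℤ}
    (hh : h ∈ Wn r) (hj : j + r ≤ L) :
    ∏ i ∈ Finset.range L, f (hw34 h j i) i = ∏ i ∈ Finset.range r, f (h i) (j + i) := by
  have h1 : ∏ i ∈ Finset.range L, f (hw34 h j i) i = ∏ i ∈ Finset.Ico j (j + r), f (hw34 h j i) i := by
    symm
    refine Finset.prod_subset ?_ ?_
    · intro i hi
      rw [Finset.mem_Ico] at hi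
      exact Finset.mem_range.2 (by omega)
    · intro i _ hi
      rw [Finset.mem_Ico] at hi
      have h2 : hw34 h j i = 0 := by
        unfold hw34
        split_ifs with hij
        · exact hh.2 _ (by omega)
        · rfl
      rw [h2, hf]
  rw [h1, Finset.prod_Ico_eq_prod_range]
  rw [Nat.add_sub_cancel_left]
  refine Finset.prod_congr rfl fun i _ => ?_
  unfold hw34
  rw [if_pos (Nat.le_add_right _ _), Nat.add_sub_cancel_left]

/-- J4. -/
theorem local_J {a b : ℝ} (ha : 1 < a) (hab : a ≤ b) {H : ℕ} {c : ℤ → ℂ} {g : ℝ → ℝ} (hg : ∀ t, gp H c t = g t)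
    (hc : c 0 = 1) (hg0 : ∀ t, 0 < g t) (r J L : ℕ) {ε : ℝ} (hε : 0 < ε) :
    ∃ n0 : ℕ, ∃ ρ > 0, ∀ x0 ∈ Icc a b, CritJ a H r c J L ε x0 → ∀ n ≥ n0, ∀ p q : ℝ, a ≤ p → p < q → q ≤ b →
      x0 - ρ < p → q < x0 + ρ → 1 ≤ q ^ n - p ^ n → q ^ n - p ^ n ≤ 2 → ∀ s : ℕ → ℝ, ∀ h ∈ Wn r, ∀ j, j + r ≤ L →
        ‖(∫ x in p..q, e (∑ i ∈ Finset.range r, h i * (x ^ (n + J + (j + i)) + s (j + i))) *
            ((∏ i ∈ Finset.range L, g (x ^ (n + J + i) + s i) : ℝ) : ℂ)) -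
          (∏ i ∈ Finset.range r, cc H c (h i)) * ((q - p : ℝ) : ℂ)‖ ≤ 3 * ε * (q - p) := by
  -- the weights
  obtain ⟨B, hB⟩ : ∃ B : ℝ, B = ∑ m ∈ Finset.Icc (-(H : ℤ)) H, ‖c m‖ := ⟨_, rfl⟩
  have hB0 : 0 ≤ B := by rw [hB]; exact Finset.sum_nonneg fun _ _ => norm_nonneg _
  obtain ⟨W, hW⟩ : ∃ W : ℝ, W = ∑ t ∈ Finset.range L, ∑ _b ∈ Z (H + r) t, B ^ (t + 1) := ⟨_, rfl⟩
  have hW0 : 0 ≤ W := by
    rw [hW]
    exact Finset.sum_nonneg fun t _ => Finset.sum_nonneg fun b' _ => by positivity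
  obtain ⟨n0, ρ, hρ, hloc⟩ := local_bound34 ha hab (H + r) J L (δ := ε / (W + 1)) (by positivity)
  refine ⟨n0, ρ, hρ, fun x0 hx0 hcrit n hn p q hpa hpq hqb hp hq h1 h2 s h hh j hj => ?_⟩
  have hqp : 0 ≤ q - p := by linarith
  obtain ⟨w, hw⟩ : ∃ w : ℝ, w = ∑ t ∈ Finset.range L, ∑ b' ∈ Z (H + r) t, ∏ i : Fin (t + 1), ‖cw H c h j i (b' i)‖ := ⟨_, rfl⟩
  have hwW : w ≤ W := by
    rw [hw, hW]
    refine Finset.sum_le_sum fun t _ => Finset.sum_le_sum fun b' _ => ?_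
    calc ∏ i : Fin (t + 1), ‖cw H c h j i (b' i)‖ ≤ ∏ _i : Fin (t + 1), B :=
          Finset.prod_le_prod (fun _ _ => norm_nonneg _) fun i _ => by rw [hB]; exact cw_le34 H c h j i (b' i)
      _ = B ^ (t + 1) := by simp
  have hprod : ∀ x : ℝ, e (∑ i ∈ Finset.range r, h i * (x ^ (n + J + (j + i)) + s (j + i))) *
      ((∏ i ∈ Finset.range L, g (x ^ (n + J + i) + s i) : ℝ) : ℂ) =
      ∏ i ∈ Finset.range L, gp (H + r) (cw H c h j i) (x ^ (n + J + i) + s i) := by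
    intro x
    have h3 : ∀ i ∈ Finset.range L, gp (H + r) (cw H c h j i) (x ^ (n + J + i) + s i) =
        e (hw34 h j i * (x ^ (n + J + i) + s i)) * (g (x ^ (n + J + i) + s i) : ℂ) := by
      intro i _
      rw [cw_eq34, shift34 H r c (hw_le34 hh j i), hg]
    rw [Finset.prod_congr rfl h3, Finset.prod_mul_distrib]
    have h4 := prod_win34 (fun (m : ℤ) (i : ℕ) => e (m * (x ^ (n + J + i) + s i))) (fun i => by simp [e_zero]) hh hj
    rw [h4, ← e_sum]
    push_cast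
    rfl
  have hzero : ∏ i ∈ Finset.range L, cw H c h j i 0 = ∏ i ∈ Finset.range r, cc H c (h i) := by
    have h3 : ∀ i ∈ Finset.range L, cw H c h j i 0 = cc H c (hw34 h j i) := by
      intro i _
      rw [cw_eq34]
      simp only [zero_sub]
      unfold cc
      simp only [Finset.mem_Icc]
    rw [Finset.prod_congr rfl h3]
    refine prod_win34 (fun (m : ℤ) (_ : ℕ) => cc H c m) (fun i => ?_) hh hj
    unfold cc
    simp [hc]
  have hmain := int_bound34 (H + r) (n + J) L (cw H c h j) (fun i => cw_zero34 hg hc hg0 hh j i) s p q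
  rw [hzero] at hmain
  simp_rw [hprod]
  refine hmain.trans ?_
  have h3 : ∀ t ∈ Finset.range L, ∑ b' ∈ Z (H + r) t, (∏ i : Fin (t + 1), ‖cw H c h j i (b' i)‖) *
      ‖∫ x in p..q, e (∑ i : Fin (t + 1), (b' i : ℝ) * x ^ (n + J + (i : ℕ)))‖ ≤
      ∑ b' ∈ Z (H + r) t, (∏ i : Fin (t + 1), ‖cw H c h j i (b' i)‖) * ((q - p) * (2 * cut ((a ^ J)⁻¹) (fz b' x0) + ε / (W + 1))) :=
    fun t ht => Finset.sum_le_sum fun b' hb => mul_le_mul_of_nonneg_left
      (hloc x0 hx0 n hn p q hpa hpq hqb hp hq h1 h2 t (Finset.mem_range.1 ht) b' hb) (Finset.prod_nonneg fun _ _ => norm_nonneg _)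
  refine (Finset.sum_le_sum h3).trans ?_
  have h4 : ∑ t ∈ Finset.range L, ∑ b' ∈ Z (H + r) t, (∏ i : Fin (t + 1), ‖cw H c h j i (b' i)‖) *
      ((q - p) * (2 * cut ((a ^ J)⁻¹) (fz b' x0) + ε / (W + 1))) =
      (q - p) * (2 * (∑ t ∈ Finset.range L, QJ a H (H + r) c h j J t x0) + w * (ε / (W + 1))) := by
    rw [hw]
    rw [Finset.mul_sum, Finset.sum_mul, ← Finset.sum_add_distrib, Finset.mul_sum]
    refine Finset.sum_congr rfl fun t _ => ?_
    unfold QJ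
    rw [Finset.mul_sum, Finset.sum_mul, ← Finset.sum_add_distrib, Finset.mul_sum]
    refine Finset.sum_congr rfl fun b' _ => ?_
    ring
  rw [h4]
  have h5 := hcrit h hh j hj
  have h6 : w * (ε / (W + 1)) ≤ ε := by
    rw [mul_div_assoc', div_le_iff₀ (by positivity)]
    nlinarith
  have h7 : 2 * (∑ t ∈ Finset.range L, QJ a H (H + r) c h j J t x0) + w * (ε / (W + 1)) ≤ 3 * ε := by linarith
  calc _ ≤ (q - p) * (3 * ε) := mul_le_mul_of_nonneg_left h7 hqp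
    _ = _ := by ring

end Pool.Agent.GJ
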